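import Mathlib

/-!
# Logarithmic energy on the real line

The kernel `log (C / |x - y|)` is positive definite on sets of diameter less than `C` of the real
line, since it is a mixture of the kernels `1_A(x) 1_A(y)` with intervals `A`.  Consequence: a
probability measure whose potential is constant on the set minimises the energy.
-/

namespace Pool.Agent.H15.Pot

open MeasureTheory Set ENNReal

section Abstract

variable {X Ω : Type} [MeasurableSpace X] [MeasurableSpace Ω]

/-- A mixture of rank one kernels is positive definite. -/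
lemma mixture_pos {ρ : Measure Ω} [SFinite ρ] {A : Set (Ω × X)} (hA : MeasurableSet A)
    (μ ν : Measure X) [SFinite μ] [SFinite ν] (k : X → X → ℝ≥0∞)
    (hμν : ∀ᵐ z ∂ν, ∀ᵐ w ∂μ, k z w = ρ {ω | (ω, z) ∈ A ∧ (ω, w) ∈ A})
    (hμμ : ∀ᵐ z ∂μ, ∀ᵐ w ∂μ, k z w = ρ {ω | (ω, z) ∈ A ∧ (ω, w) ∈ A})
    (hνν : ∀ᵐ z ∂ν, ∀ᵐ w ∂ν, k z w = ρ {ω | (ω, z) ∈ A ∧ (ω, w) ∈ A}) :
    2 * ∫⁻ z, ∫⁻ w, k z w ∂μ ∂ν ≤
      (∫⁻ z, ∫⁻ w, k z w ∂μ ∂μ) + ∫⁻ z, ∫⁻ w, k z w ∂ν ∂ν := by
  have key : ∀ (μ ν : Measure X) [SFinite μ] [SFinite ν],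
      (∀ᵐ z ∂ν, ∀ᵐ w ∂μ, k z w = ρ {ω | (ω, z) ∈ A ∧ (ω, w) ∈ A}) →
      ∫⁻ z, ∫⁻ w, k z w ∂μ ∂ν =
        ∫⁻ ω, ν {z | (ω, z) ∈ A} * μ {w | (ω, w) ∈ A} ∂ρ := by
    intro μ ν _ _ h
    have h1 : ∫⁻ z, ∫⁻ w, k z w ∂μ ∂ν =
        ∫⁻ z, ∫⁻ w, ∫⁻ ω, A.indicator 1 (ω, z) * A.indicator 1 (ω, w) ∂ρ ∂μ ∂ν := by
      refine lintegral_congr_ae ?_
      filter_upwards [h] with z hz
      refine lintegral_congr_ae ?_
      filter_upwards [hz] with w hw
      rw [hw]
      have h2 : ∀ ω, A.indicator (1 : Ω × X → ℝ≥0∞) (ω, z) * A.indicator 1 (ω, w) =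
          ({ω | (ω, z) ∈ A ∧ (ω, w) ∈ A} : Set Ω).indicator 1 ω := by
        intro ω
        by_cases h3 : (ω, z) ∈ A <;> by_cases h4 : (ω, w) ∈ A <;> simp [h3, h4]
      simp_rw [h2]
      rw [lintegral_indicator_one]
      exact (measurable_prodMk_right hA).inter (measurable_prodMk_right hA)
    have hind : Measurable (A.indicator (1 : Ω × X → ℝ≥0∞)) :=
      measurable_one.indicator hA
    rw [h1]
    have h5 : ∀ z, ∫⁻ w, ∫⁻ ω, A.indicator (1 : Ω × X → ℝ≥0∞) (ω, z) * A.indicator 1 (ω, w) ∂ρ ∂μ =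
        ∫⁻ ω, A.indicator (1 : Ω × X → ℝ≥0∞) (ω, z) * μ {w | (ω, w) ∈ A} ∂ρ := by
      intro z
      rw [lintegral_lintegral_swap]
      · refine lintegral_congr fun ω => ?_
        rw [lintegral_const_mul]
        · congr 1
          have : (fun w => A.indicator (1 : Ω × X → ℝ≥0∞) (ω, w)) =
              ({w | (ω, w) ∈ A} : Set X).indicator 1 := by
            funext w
            by_cases h4 : (ω, w) ∈ A <;> simp [h4]
          rw [this]
          exact lintegral_indicator_one (measurable_prodMk_left hA)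
        · exact hind.comp measurable_prodMk_left
      · apply Measurable.aemeasurable
        apply Measurable.mul
        · exact hind.comp (measurable_snd.prodMk measurable_const)
        · exact hind.comp (measurable_snd.prodMk measurable_fst)
    simp_rw [h5]
    rw [lintegral_lintegral_swap]
    · refine lintegral_congr fun ω => ?_
      rw [lintegral_mul_const]
      · congr 1
        have : (fun w => A.indicator (1 : Ω × X → ℝ≥0∞) (ω, w)) =
            ({w | (ω, w) ∈ A} : Set X).indicator 1 := by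
          funext w
          by_cases h4 : (ω, w) ∈ A <;> simp [h4]
        rw [this]
        exact lintegral_indicator_one (measurable_prodMk_left hA)
      · exact hind.comp measurable_prodMk_left
    · apply Measurable.aemeasurable
      apply Measurable.mul
      · exact hind.comp (measurable_snd.prodMk measurable_fst)
      · exact (measurable_measure_prodMk_left hA).comp measurable_snd
  rw [key μ ν hμν, key μ μ hμμ, key ν ν hνν]
  have hm1 : Measurable fun ω => μ {w | (ω, w) ∈ A} := measurable_measure_prodMk_left hA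
  have hm2 : Measurable fun ω => ν {w | (ω, w) ∈ A} := measurable_measure_prodMk_left hA
  have e1 : 2 * ∫⁻ ω, ν {z | (ω, z) ∈ A} * μ {w | (ω, w) ∈ A} ∂ρ =
      ∫⁻ ω, 2 * (ν {z | (ω, z) ∈ A} * μ {w | (ω, w) ∈ A}) ∂ρ :=
    (lintegral_const_mul _ (hm2.mul hm1)).symm
  have e2 : ∫⁻ ω, μ {z | (ω, z) ∈ A} * μ {w | (ω, w) ∈ A} ∂ρ +
      ∫⁻ ω, ν {z | (ω, z) ∈ A} * ν {w | (ω, w) ∈ A} ∂ρ =
      ∫⁻ ω, (μ {z | (ω, z) ∈ A} * μ {w | (ω, w) ∈ A} +
        ν {z | (ω, z) ∈ A} * ν {w | (ω, w) ∈ A}) ∂ρ :=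
    (lintegral_add_left (hm1.mul hm1) _).symm
  rw [e1, e2]
  refine lintegral_mono fun ω => ?_
  generalize μ {w | (ω, w) ∈ A} = a
  generalize ν {w | (ω, w) ∈ A} = b
  rcases eq_or_ne a ⊤ with ha | ha
  · simp [ha]
  rcases eq_or_ne b ⊤ with hb | hb
  · simp [hb]
  lift a to NNReal using ha
  lift b to NNReal using hb
  have h : (2 : NNReal) * (b * a) ≤ a * a + b * b := by
    rw [← NNReal.coe_le_coe]
    push_cast
    nlinarith [two_mul_le_add_sq (a : ℝ) (b : ℝ)]
  have h2 := ENNReal.coe_le_coe.2 h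
  push_cast at h2
  exact h2

end Abstract

section Log

/-- The set of all `((s, u), x)` with `x` in the interval `[u, u + s)`. -/
def slab : Set ((ℝ × ℝ) × ℝ) := {p | p.1.2 ≤ p.2 ∧ p.2 < p.1.2 + p.1.1}

lemma measurableSet_slab : MeasurableSet slab := by
  apply MeasurableSet.inter
  · exact measurableSet_le (measurable_snd.comp measurable_fst) measurable_snd
  · exact measurableSet_lt measurable_snd
      ((measurable_snd.comp measurable_fst).add (measurable_fst.comp measurable_fst))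

/-- The mixing measure of the lengths of the intervals. -/
noncomputable def lenMeasure (C : ℝ) : Measure ℝ :=
  (volume.restrict (Ioc 0 C)).withDensity (fun s => ENNReal.ofReal (1 / s ^ 2)) +
    ENNReal.ofReal (1 / C) • Measure.dirac C

instance (C : ℝ) : SFinite (lenMeasure C) := by
  unfold lenMeasure
  infer_instance

lemma volume_slab {x y s : ℝ} : volume {u : ℝ | ((s, u), x) ∈ slab ∧ ((s, u), y) ∈ slab} =
    ENNReal.ofReal (s - |x - y|) := by
  have h : {u : ℝ | ((s, u), x) ∈ slab ∧ ((s, u), y) ∈ slab} = Ioc (max x y - s) (min x y) := by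
    ext u
    simp only [slab, mem_ofPred_eq, mem_Ioc, le_min_iff, sub_lt_iff_lt_add, max_lt_iff]
    constructor
    · rintro ⟨⟨h1, h2⟩, h3, h4⟩; exact ⟨⟨h2, h4⟩, h1, h3⟩
    · rintro ⟨⟨h2, h4⟩, h1, h3⟩; exact ⟨⟨h1, h2⟩, h3, h4⟩
  rw [h, Real.volume_Ioc]
  congr 1
  have := max_sub_min_eq_abs x y
  rw [abs_sub_comm] at this
  linarith

lemma lintegral_len {d C : ℝ} (hd : 0 < d) (hdC : d ≤ C) :
    ∫⁻ s, ENNReal.ofReal (s - d) ∂(lenMeasure C) = ENNReal.ofReal (Real.log (C / d)) := by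
  have hC : 0 < C := hd.trans_le hdC
  have hmeas : Measurable fun s : ℝ => ENNReal.ofReal (s - d) := by fun_prop
  have hmeas2 : Measurable fun s : ℝ => ENNReal.ofReal (1 / s ^ 2) := by fun_prop
  unfold lenMeasure
  rw [lintegral_add_measure, lintegral_smul_measure, lintegral_dirac' _ hmeas,
    lintegral_withDensity_eq_lintegral_mul _ hmeas2 hmeas]
  have h1 : ∫⁻ s in Ioc 0 C, ((fun s : ℝ => ENNReal.ofReal (1 / s ^ 2)) *
      fun s : ℝ => ENNReal.ofReal (s - d)) s =
      ∫⁻ s in Ioc d C, ENNReal.ofReal ((s - d) / s ^ 2) := by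
    have h2 : Ioc 0 C = Ioc 0 d ∪ Ioc d C := (Ioc_union_Ioc_eq_Ioc hd.le hdC).symm
    rw [h2, lintegral_union measurableSet_Ioc
      (Set.disjoint_left.2 fun x hx hy => absurd hx.2 (not_le.2 hy.1))]
    have h3 : ∫⁻ s in Ioc 0 d, ((fun s : ℝ => ENNReal.ofReal (1 / s ^ 2)) *
        fun s : ℝ => ENNReal.ofReal (s - d)) s = 0 := by
      rw [setLIntegral_congr_fun (g := fun _ => 0) measurableSet_Ioc]
      · simp
      · intro s hs
        simp only [Pi.mul_apply]
        rw [ENNReal.ofReal_of_nonpos (show s - d ≤ 0 by linarith [hs.2]), mul_zero]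
    rw [h3, zero_add]
    refine setLIntegral_congr_fun measurableSet_Ioc fun s hs => ?_
    simp only [Pi.mul_apply]
    rw [← ENNReal.ofReal_mul (by positivity)]
    congr 1
    ring
  rw [h1]
  have hpos : ∀ s ∈ Ioc d C, 0 < s := fun s hs => hd.trans hs.1
  have hderiv : ∀ s ∈ uIcc d C, HasDerivAt (fun s => Real.log s + d / s) ((s - d) / s ^ 2) s := by
    intro s hs
    rw [uIcc_of_le hdC] at hs
    have hs0 : s ≠ 0 := (hd.trans_le hs.1).ne'
    have h4 := (Real.hasDerivAt_log hs0).add ((hasDerivAt_inv hs0).const_mul d)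
    have h5 : (fun s => Real.log s + d / s) = fun s => Real.log s + d * s⁻¹ := by
      funext s; rw [div_eq_mul_inv]
    rw [h5]
    refine h4.congr_deriv ?_
    field_simp
    ring
  have hcont : ContinuousOn (fun s : ℝ => (s - d) / s ^ 2) (uIcc d C) := by
    intro s hs
    rw [uIcc_of_le hdC] at hs
    have hs0 : s ≠ 0 := (hd.trans_le hs.1).ne'
    have c1 : ContinuousAt (fun s : ℝ => s - d) s := by fun_prop
    have c2 : ContinuousAt (fun s : ℝ => s ^ 2) s := by fun_prop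
    exact (c1.div c2 (pow_ne_zero 2 hs0)).continuousWithinAt
  have hint := intervalIntegral.integral_eq_sub_of_hasDerivAt hderiv hcont.intervalIntegrable
  have h6 : ∫⁻ s in Ioc d C, ENNReal.ofReal ((s - d) / s ^ 2) =
      ENNReal.ofReal (∫ s in d..C, (s - d) / s ^ 2) := by
    rw [intervalIntegral.integral_of_le hdC]
    rw [ofReal_integral_eq_lintegral_ofReal]
    · exact (hcont.intervalIntegrable).1
    · filter_upwards [ae_restrict_mem measurableSet_Ioc] with s hs
      have := hs.1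
      exact div_nonneg (by linarith) (by positivity)
  rw [h6, hint, smul_eq_mul, ← ENNReal.ofReal_mul (by positivity), ← ENNReal.ofReal_add]
  · congr 1
    rw [Real.log_div hC.ne' hd.ne']
    field_simp
    ring
  · rw [← hint]
    apply intervalIntegral.integral_nonneg hdC
    intro s hs
    have := hs.1
    exact div_nonneg (by linarith) (by positivity)
  · have : 0 ≤ C - d := by linarith
    positivity

/-- The logarithmic kernel is a mixture of rank one kernels. -/
lemma log_kernel {x y C : ℝ} (hxy : x ≠ y) (hC : |x - y| ≤ C) :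
    ((lenMeasure C).prod volume) {ω | (ω, x) ∈ slab ∧ (ω, y) ∈ slab} =
      ENNReal.ofReal (Real.log (C / |x - y|)) := by
  have hm : MeasurableSet {ω : ℝ × ℝ | (ω, x) ∈ slab ∧ (ω, y) ∈ slab} :=
    (measurable_prodMk_right measurableSet_slab).inter (measurable_prodMk_right measurableSet_slab)
  rw [Measure.prod_apply hm, ← lintegral_len (abs_pos.2 (sub_ne_zero.2 hxy)) hC]
  refine lintegral_congr fun s => ?_
  exact volume_slab

end Log

section Complex

/-- The logarithmic kernel of the set `J`. -/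
noncomputable def ker (J : Set ℂ) (z w : ℂ) : ℝ≥0∞ :=
  ENNReal.ofReal (Real.log ((Metric.diam J + 1) / ‖z - w‖))

variable {J : Set ℂ} (hb : Bornology.IsBounded J) (hre : J ⊆ {z : ℂ | z.im = 0})
include hb hre

/-- The logarithmic energy form is positive definite on the real line. -/
theorem energy_pos (μ ν : Measure ℂ) [SFinite μ] [SFinite ν] [NullSingletonClass μ] [NullSingletonClass ν]
    (hμ : μ Jᶜ = 0) (hν : ν Jᶜ = 0) :
    2 * ∫⁻ z, ∫⁻ w, ker J z w ∂μ ∂ν ≤
      (∫⁻ z, ∫⁻ w, ker J z w ∂μ ∂μ) + ∫⁻ z, ∫⁻ w, ker J z w ∂ν ∂ν := by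
  let A : Set ((ℝ × ℝ) × ℂ) := {p | (p.1, p.2.re) ∈ slab}
  have hA : MeasurableSet A :=
    measurableSet_slab.preimage (measurable_fst.prodMk (Complex.measurable_re.comp measurable_snd))
  have hgen : ∀ (μ ν : Measure ℂ) [NullSingletonClass μ], μ Jᶜ = 0 → ν Jᶜ = 0 →
      ∀ᵐ z ∂ν, ∀ᵐ w ∂μ, ker J z w =
        ((lenMeasure (Metric.diam J + 1)).prod volume) {ω | (ω, z) ∈ A ∧ (ω, w) ∈ A} := by
    intro μ ν _ hμ hν
    have h1 : ∀ᵐ z ∂ν, z ∈ J := by rw [ae_iff]; exact hν
    have h2 : ∀ᵐ z ∂μ, z ∈ J := by rw [ae_iff]; exact hμ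
    filter_upwards [h1] with z hz
    have h3 : ∀ᵐ w ∂μ, w ≠ z := by
      rw [ae_iff]
      simp
    filter_upwards [h2, h3] with w hw hwz
    have hnorm : ‖z - w‖ = |z.re - w.re| := by
      have h4 : z - w = ((z.re - w.re : ℝ) : ℂ) := by
        apply Complex.ext
        · simp
        · have h5 : z.im = 0 := hre hz
          have h6 : w.im = 0 := hre hw
          simp [h5, h6]
      rw [h4, Complex.norm_real, Real.norm_eq_abs]
    have hne : z.re ≠ w.re := by
      intro h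
      apply hwz
      have h5 : z.im = 0 := hre hz
      have h6 : w.im = 0 := hre hw
      exact Complex.ext h.symm (by rw [h5, h6])
    have hle : |z.re - w.re| ≤ Metric.diam J + 1 := by
      rw [← hnorm, ← dist_eq_norm]
      have := Metric.dist_le_diam_of_mem hb hz hw
      linarith
    unfold ker
    rw [hnorm]
    exact (log_kernel hne hle).symm
  exact mixture_pos hA μ ν (ker J) (hgen μ ν hμ hν) (hgen μ μ hμ hμ) (hgen ν ν hν hν)

/-- A probability measure with constant potential minimises the energy. -/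
theorem energy_min (μ : Measure ℂ) [IsProbabilityMeasure μ] [NullSingletonClass μ] (hμ : μ Jᶜ = 0)
    {V : ℝ≥0∞} (hV : V ≠ ⊤) (hlow : ∀ z ∈ J, V ≤ ∫⁻ w, ker J z w ∂μ)
    (hup : ∫⁻ z, ∫⁻ w, ker J z w ∂μ ∂μ ≤ V)
    (ν : Measure ℂ) [IsProbabilityMeasure ν] [NullSingletonClass ν] (hν : ν Jᶜ = 0) :
    ∫⁻ z, ∫⁻ w, ker J z w ∂μ ∂μ ≤ ∫⁻ z, ∫⁻ w, ker J z w ∂ν ∂ν := by
  have h1 := energy_pos hb hre μ ν hμ hν
  have h2 : V ≤ ∫⁻ z, ∫⁻ w, ker J z w ∂μ ∂ν := by
    have h3 : ∀ᵐ z ∂ν, z ∈ J := by rw [ae_iff]; exact hν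
    calc V = ∫⁻ _, V ∂ν := by simp
      _ ≤ _ := lintegral_mono_ae (by filter_upwards [h3] with z hz; exact hlow z hz)
  have h4 : V + V ≤ V + ∫⁻ z, ∫⁻ w, ker J z w ∂ν ∂ν := by
    calc V + V = 2 * V := (two_mul V).symm
      _ ≤ 2 * ∫⁻ z, ∫⁻ w, ker J z w ∂μ ∂ν := by gcongr
      _ ≤ _ := h1
      _ ≤ _ := by gcongr
  exact hup.trans ((ENNReal.add_le_add_iff_left hV).1 h4)

end Complex

end Pool.Agent.H15.Pot
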